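import Pool.Agent.W207.SW.SpecE

/-!
# Odd functions give even ones (part ODDK of project SW)
-/

set_option autoImplicit false

open Filter Topology Set MeasureTheory

namespace Pool.Agent.W978.SW

open W207.PR (ct dt)
open W207.SW

/-- derivative of the parametric integral -/
theorem par_deriv {g g' : ℝ → ℝ} (hg : ∀ x, HasDerivAt g (g' x) x) (hg' : Continuous g') (j : ℕ)
    (a : ℝ) : HasDerivAt (fun a : ℝ => ∫ t in (-1 : ℝ)..1, t ^ j * g (a * t))
      (∫ t in (-1 : ℝ)..1, t ^ (j + 1) * g' (a * t)) a := by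
  have hgc : Continuous g := continuous_iff_continuousAt.2 fun x => (hg x).continuousAt
  obtain ⟨B, hB⟩ := (isCompact_Icc (a := -(|a| + 1)) (b := |a| + 1)).exists_bound_of_continuousOn
    hg'.continuousOn
  have hB0 : 0 ≤ B := (norm_nonneg _).trans (hB 0 ⟨by linarith [abs_nonneg a],
    by linarith [abs_nonneg a]⟩)
  refine (intervalIntegral.hasDerivAt_integral_of_dominated_loc_of_deriv_le
    (s := Metric.ball a 1) (bound := fun _ => B) (F := fun a t => t ^ j * g (a * t))
    (F' := fun a t => t ^ (j + 1) * g' (a * t)) (Metric.ball_mem_nhds a one_pos)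
    ?_ ?_ ?_ ?_ ?_ ?_).2
  · refine Eventually.of_forall fun x => ?_
    have : Continuous fun t : ℝ => t ^ j * g (x * t) := by fun_prop
    exact this.aestronglyMeasurable
  · have : Continuous fun t : ℝ => t ^ j * g (a * t) := by fun_prop
    exact this.intervalIntegrable _ _
  · have : Continuous fun t : ℝ => t ^ (j + 1) * g' (a * t) := by fun_prop
    exact this.aestronglyMeasurable
  · refine Eventually.of_forall fun t ht x hx => ?_
    rw [uIoc_of_le (by norm_num)] at ht
    have h1 : |t| ≤ 1 := abs_le.2 ⟨ht.1.le, ht.2⟩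
    have h2 : |x| ≤ |a| + 1 := by
      rw [Metric.mem_ball, Real.dist_eq] at hx
      have := abs_sub_abs_le_abs_sub x a
      linarith
    have h3 : |x * t| ≤ |a| + 1 := by
      rw [abs_mul]
      calc |x| * |t| ≤ (|a| + 1) * 1 := mul_le_mul h2 h1 (abs_nonneg _) (by positivity)
        _ = _ := mul_one _
    have h4 := hB (x * t) (abs_le.1 h3)
    rw [norm_mul, norm_pow]
    calc ‖t‖ ^ (j + 1) * ‖g' (x * t)‖ ≤ 1 * B :=
          mul_le_mul (pow_le_one₀ (norm_nonneg _) h1) h4 (norm_nonneg _) zero_le_one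
      _ = B := one_mul B
  · exact intervalIntegrable_const
  · refine Eventually.of_forall fun t ht x hx => ?_
    have h1 : HasDerivAt (fun x : ℝ => x * t) t x := hasDerivAt_mul_const t
    have h2 := ((hg (x * t)).comp x h1).const_mul (t ^ j)
    have e : t ^ (j + 1) * g' (x * t) = t ^ j * (g' (x * t) * t) := by ring
    rw [e]
    exact h2

theorem cd_deriv {g : ℝ → ℝ} (hg : ∀ m : ℕ, ContDiff ℝ m g) (m : ℕ) : ContDiff ℝ m (deriv g) := by
  have h := hg (m + 1)
  push_cast at h
  exact (contDiff_succ_iff_deriv.1 h).2.2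

theorem hd {g : ℝ → ℝ} (hg : ∀ m : ℕ, ContDiff ℝ m g) (x : ℝ) : HasDerivAt g (deriv g x) x := by
  have h := hg 1
  exact ((h.differentiable (by norm_num)) x).hasDerivAt

theorem par_cd (n : ℕ) : ∀ (g : ℝ → ℝ), (∀ m : ℕ, ContDiff ℝ m g) → ∀ j : ℕ,
    ContDiff ℝ n (fun a : ℝ => ∫ t in (-1 : ℝ)..1, t ^ j * g (a * t)) := by
  induction n with
  | zero =>
    intro g hg j
    have h := par_deriv (hd hg) (cd_deriv hg 0).continuous j
    have : Continuous (fun a : ℝ => ∫ t in (-1 : ℝ)..1, t ^ j * g (a * t)) :=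
      continuous_iff_continuousAt.2 fun x => (h x).continuousAt
    exact contDiff_zero.2 this
  | succ n ih =>
    intro g hg j
    have h := par_deriv (hd hg) (cd_deriv hg 0).continuous j
    push_cast
    rw [contDiff_succ_iff_deriv]
    refine ⟨fun x => (h x).differentiableAt, by simp, ?_⟩
    have e : deriv (fun a : ℝ => ∫ t in (-1 : ℝ)..1, t ^ j * g (a * t)) =
        fun a : ℝ => ∫ t in (-1 : ℝ)..1, t ^ (j + 1) * deriv g (a * t) :=
      funext fun x => (h x).deriv
    rw [e]
    exact ih _ (cd_deriv hg) (j + 1)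

/-- the difference -/
def gd (ψ : ℝ → ℝ) (ν x : ℝ) : ℝ := ψ (ν + x) - ψ x

/-- the new test function -/
noncomputable def chi (ψ : ℝ → ℝ) (ν a : ℝ) : ℝ :=
  1 / 4 * ∫ t in (-1 : ℝ)..1, t ^ 0 * gd ψ ν (a * t)

theorem gd_cd {ψ : ℝ → ℝ} (h : ∀ n : ℕ, ContDiff ℝ n ψ) (ν : ℝ) (n : ℕ) :
    ContDiff ℝ n (gd ψ ν) := by
  have h1 : ContDiff ℝ n (fun x : ℝ => ψ (ν + x)) := (h n).comp (contDiff_const.add contDiff_id)
  exact h1.sub (h n)

theorem chi_cd {ψ : ℝ → ℝ} (h : ∀ n : ℕ, ContDiff ℝ n ψ) (ν : ℝ) (n : ℕ) :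
    ContDiff ℝ n (chi ψ ν) :=
  contDiff_const.mul (par_cd n _ (gd_cd h ν) 0)

theorem mul_chi (ψ : ℝ → ℝ) (ν a : ℝ) : 4 * (a * chi ψ ν a) = ∫ x in (-a)..a, gd ψ ν x := by
  have h := intervalIntegral.mul_integral_comp_mul_left (a := -1) (b := 1) (f := gd ψ ν) a
  rw [mul_neg_one, mul_one] at h
  rw [← h]
  unfold chi
  simp only [pow_zero, one_mul]
  ring

theorem chi_even (ψ : ℝ → ℝ) (ν a : ℝ) : chi ψ ν (-a) = chi ψ ν a := by
  unfold chi
  simp only [pow_zero, one_mul]
  have h := intervalIntegral.integral_comp_neg (a := -1) (b := 1) (fun t => gd ψ ν (a * t))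
  simp only [neg_neg] at h
  rw [← h]
  congr 2
  ext t
  congr 1
  ring

theorem int_all {ψ : ℝ → ℝ} {μ : ℝ} (hs : ∀ x, μ ≤ |x| → ψ x = 0) {a b : ℝ}
    (ha : a ≤ -μ) (hb : μ ≤ b) : ∫ x in a..b, ψ x = ∫ x, ψ x := by
  apply intervalIntegral.integral_eq_integral_of_support_subset
  intro x hx
  rw [Function.mem_support] at hx
  have h : |x| < μ := by
    by_contra hc
    exact hx (hs x (not_lt.1 hc))
  rw [abs_lt] at h
  exact ⟨by linarith, by linarith⟩

theorem chi_supp {ψ : ℝ → ℝ} (hc : Continuous ψ) {μ ν : ℝ} (hμ : 0 < μ) (hν : 0 < ν)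
    (hs : ∀ x, μ ≤ |x| → ψ x = 0) (a : ℝ) (ha : μ + ν ≤ |a|) : chi ψ ν a = 0 := by
  have key : ∀ a : ℝ, μ + ν ≤ a → chi ψ ν a = 0 := by
    intro a ha
    have h := mul_chi ψ ν a
    have h1 : ∫ x in (-a)..a, gd ψ ν x = 0 := by
      unfold gd
      have j1 : Continuous (fun x => ψ (ν + x)) := by fun_prop
      rw [intervalIntegral.integral_sub (j1.intervalIntegrable _ _) (hc.intervalIntegrable _ _)]
      rw [intervalIntegral.integral_comp_add_left (fun x => ψ x)]
      rw [int_all hs (by linarith) (by linarith), int_all hs (by linarith) (by linarith), sub_self]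
    rw [h1] at h
    have h2 : a ≠ 0 := by
      intro h0
      rw [h0] at ha
      linarith
    have h3 : a * chi ψ ν a = 0 := by linarith
    exact (mul_eq_zero.1 h3).resolve_left h2
  rcases le_total 0 a with h0 | h0
  · rw [abs_of_nonneg h0] at ha
    exact key a ha
  · rw [abs_of_nonpos h0] at ha
    rw [← chi_even]
    exact key _ ha

theorem integ {f : ℝ → ℝ} (hc : Continuous f) {M : ℝ} (hs : ∀ x, M ≤ |x| → f x = 0) :
    Integrable f := by
  apply hc.integrable_of_hasCompactSupport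
  apply HasCompactSupport.intro (isCompact_Icc (a := -M) (b := M))
  intro x hx
  apply hs
  by_contra h
  push Not at h
  rw [abs_lt] at h
  exact hx ⟨h.1.le, h.2.le⟩

/-- the transform of the difference -/
theorem int_gd {ψ : ℝ → ℝ} (hc : Continuous ψ) (he : ∀ x, ψ (-x) = ψ x) {μ : ℝ}
    (hs : ∀ x, μ ≤ |x| → ψ x = 0) (ν u : ℝ) :
    ∫ x, gd ψ ν x * Real.cos (2 * Real.pi * x * u) =
      -(2 * (ct ψ u * Real.sin (Real.pi * ν * u) ^ 2)) := by
  have i1 : Integrable (fun x => ψ x * Real.cos (2 * Real.pi * x * u)) :=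
    integ (by fun_prop) (M := μ) fun x hx => by rw [hs x hx, zero_mul]
  have i2 : Integrable (fun x => ψ x * Real.sin (2 * Real.pi * x * u)) :=
    integ (by fun_prop) (M := μ) fun x hx => by rw [hs x hx, zero_mul]
  have s0 : ∫ x, ψ x * Real.sin (2 * Real.pi * x * u) = 0 := by
    have h := integral_neg_eq_self (fun x => ψ x * Real.sin (2 * Real.pi * x * u)) volume
    have h2 : ∀ x : ℝ, ψ (-x) * Real.sin (2 * Real.pi * (-x) * u) =
        -(ψ x * Real.sin (2 * Real.pi * x * u)) := by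
      intro x
      rw [he]
      have : 2 * Real.pi * (-x) * u = -(2 * Real.pi * x * u) := by ring
      rw [this, Real.sin_neg]
      ring
    simp only [h2, integral_neg] at h
    linarith
  have e1 : ∫ x, ψ (ν + x) * Real.cos (2 * Real.pi * x * u) =
      Real.cos (2 * Real.pi * ν * u) * ct ψ u := by
    have h := integral_add_left_eq_self (μ := (volume : Measure ℝ))
      (fun x => ψ x * Real.cos (2 * Real.pi * (x - ν) * u)) ν
    simp only [add_sub_cancel_left] at h
    rw [h]
    have h2 : ∀ x : ℝ, ψ x * Real.cos (2 * Real.pi * (x - ν) * u) =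
        Real.cos (2 * Real.pi * ν * u) * (ψ x * Real.cos (2 * Real.pi * x * u)) +
        Real.sin (2 * Real.pi * ν * u) * (ψ x * Real.sin (2 * Real.pi * x * u)) := by
      intro x
      have : 2 * Real.pi * (x - ν) * u = 2 * Real.pi * x * u - 2 * Real.pi * ν * u := by ring
      rw [this, Real.cos_sub]
      ring
    simp only [h2]
    rw [integral_add (i1.const_mul _) (i2.const_mul _), integral_const_mul, integral_const_mul, s0]
    unfold ct
    ring
  have i3 : Integrable (fun x => ψ (ν + x) * Real.cos (2 * Real.pi * x * u)) := by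
    refine integ (by fun_prop) (M := μ + |ν|) fun x hx => ?_
    rw [hs, zero_mul]
    have h1 := abs_sub_abs_le_abs_sub x (-ν)
    rw [abs_neg, sub_neg_eq_add, add_comm x ν] at h1
    linarith
  have e2 : ∀ x : ℝ, gd ψ ν x * Real.cos (2 * Real.pi * x * u) =
      ψ (ν + x) * Real.cos (2 * Real.pi * x * u) - ψ x * Real.cos (2 * Real.pi * x * u) := by
    intro x
    unfold gd
    ring
  simp only [e2]
  rw [integral_sub i3 i1, e1]
  have e3 : ∫ x, ψ x * Real.cos (2 * Real.pi * x * u) = ct ψ u := rfl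
  rw [e3]
  have e4 : Real.cos (2 * Real.pi * ν * u) = 1 - 2 * Real.sin (Real.pi * ν * u) ^ 2 := by
    have : 2 * Real.pi * ν * u = 2 * (Real.pi * ν * u) := by ring
    rw [this, Real.cos_two_mul, Real.cos_sq']
    ring
  rw [e4]
  ring

/-- the identity -/
theorem dt_chi {ψ : ℝ → ℝ} (hcd : ∀ n : ℕ, ContDiff ℝ n ψ) (he : ∀ x, ψ (-x) = ψ x) {μ ν : ℝ}
    (hμ : 0 < μ) (hν : 0 < ν) (hs : ∀ x, μ ≤ |x| → ψ x = 0) {u : ℝ} (hu : 0 < u) :
    dt (chi ψ ν) u = ct ψ u * (Real.sin (Real.pi * ν * u) ^ 2 / u) := by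
  have hc : Continuous ψ := (hcd 0).continuous
  have hgc : Continuous (gd ψ ν) := (gd_cd hcd ν 0).continuous
  have hχc : Continuous (chi ψ ν) := (chi_cd hcd ν 0).continuous
  have hχs := chi_supp hc hμ hν hs
  set H : ℝ → ℝ := fun a => 4 * (a * chi ψ ν a) with hH
  have hHd : ∀ a, HasDerivAt H (gd ψ ν a + gd ψ ν (-a)) a := by
    intro a
    have e : H = fun a => (∫ x in (0 : ℝ)..a, gd ψ ν x) - ∫ x in (0 : ℝ)..(-a), gd ψ ν x := by
      funext a
      rw [hH]
      simp only
      rw [mul_chi, intervalIntegral.integral_interval_sub_left (hgc.intervalIntegrable _ _)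
        (hgc.intervalIntegrable _ _)]
    rw [e]
    have d1 : HasDerivAt (fun a => ∫ x in (0 : ℝ)..a, gd ψ ν x) (gd ψ ν a) a :=
      intervalIntegral.integral_hasDerivAt_right (hgc.intervalIntegrable _ _)
        (hgc.stronglyMeasurableAtFilter _ _) hgc.continuousAt
    have d2 : HasDerivAt (fun a => ∫ x in (0 : ℝ)..a, gd ψ ν x) (gd ψ ν (-a)) (-a) :=
      intervalIntegral.integral_hasDerivAt_right (hgc.intervalIntegrable _ _)
        (hgc.stronglyMeasurableAtFilter _ _) hgc.continuousAt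
    have d3 := d2.scomp a (hasDerivAt_neg a)
    have d4 := d1.sub d3
    have e2 : gd ψ ν a + gd ψ ν (-a) = gd ψ ν a - (-1 : ℝ) • gd ψ ν (-a) := by
      simp
    rw [e2]
    exact d4
  have hHc : Continuous H := by fun_prop
  have hHs : ∀ a, μ + ν ≤ |a| → H a = 0 := fun a ha => by
    rw [hH]
    simp only
    rw [hχs a ha]; ring
  have hgs : ∀ a, μ + ν ≤ |a| → gd ψ ν a = 0 := by
    intro a ha
    unfold gd
    rw [hs a (by linarith), hs]
    · ring
    · have h1 := abs_sub_abs_le_abs_sub a (-ν)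
      rw [abs_neg, sub_neg_eq_add, add_comm a ν, abs_of_pos hν] at h1
      linarith
  have hp : 2 * Real.pi * u ≠ 0 := by positivity
  set v : ℝ → ℝ := fun a => -Real.cos (2 * Real.pi * a * u) / (2 * Real.pi * u) with hv
  have hvd : ∀ a, HasDerivAt v (Real.sin (2 * Real.pi * a * u)) a := by
    intro a
    have h1 : HasDerivAt (fun a : ℝ => 2 * Real.pi * a * u) (2 * Real.pi * u) a := by
      have := (hasDerivAt_id a).const_mul (2 * Real.pi) |>.mul_const u
      simpa using this
    have h2 := (h1.cos.neg).div_const (2 * Real.pi * u)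
    have e : Real.sin (2 * Real.pi * a * u) =
        -(-Real.sin (2 * Real.pi * a * u) * (2 * Real.pi * u)) / (2 * Real.pi * u) := by
      field_simp
    rw [e]
    exact h2
  have hvc : Continuous v := by
    rw [hv]; fun_prop
  have ibp := integral_mul_deriv_eq_deriv_mul_of_integrable (u := H) (v := v)
    (u' := fun a => gd ψ ν a + gd ψ ν (-a)) (v' := fun a => Real.sin (2 * Real.pi * a * u))
    (fun a _ => hHd a) (fun a _ => hvd a)
    (integ (M := μ + ν) (by fun_prop) fun a ha => by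
      rw [Pi.mul_apply, hHs a ha, zero_mul])
    (integ (M := μ + ν) (by fun_prop) fun a ha => by
      rw [Pi.mul_apply, hgs a ha, hgs (-a) (by rwa [abs_neg])]; ring)
    (integ (M := μ + ν) (by fun_prop) fun a ha => by
      rw [Pi.mul_apply, hHs a ha, zero_mul])
  have i1 : Integrable (fun a => gd ψ ν a * Real.cos (2 * Real.pi * a * u)) :=
    integ (M := μ + ν) (by fun_prop) fun a ha => by rw [hgs a ha, zero_mul]
  have i2 : Integrable (fun a => gd ψ ν (-a) * Real.cos (2 * Real.pi * (-a) * u)) :=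
    i1.comp_neg
  have e5 : ∫ a, (gd ψ ν a + gd ψ ν (-a)) * v a = -(1 / (2 * Real.pi * u)) *
      (2 * ∫ a, gd ψ ν a * Real.cos (2 * Real.pi * a * u)) := by
    have h1 : ∀ a : ℝ, (gd ψ ν a + gd ψ ν (-a)) * v a = -(1 / (2 * Real.pi * u)) *
        (gd ψ ν a * Real.cos (2 * Real.pi * a * u) +
          gd ψ ν (-a) * Real.cos (2 * Real.pi * (-a) * u)) := by
      intro a
      have : 2 * Real.pi * (-a) * u = -(2 * Real.pi * a * u) := by ring
      rw [this, Real.cos_neg, hv]
      ring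
    simp only [h1]
    rw [integral_const_mul, integral_add i1 i2,
      integral_neg_eq_self (fun a => gd ψ ν a * Real.cos (2 * Real.pi * a * u)) volume]
    ring
  rw [e5, int_gd hc he hs] at ibp
  have e6 : dt (chi ψ ν) u = -(Real.pi / 2 * ∫ a, H a * Real.sin (2 * Real.pi * a * u)) := by
    unfold dt
    rw [← integral_const_mul]
    congr 2
    ext a
    rw [hH]
    ring
  rw [e6, ibp]
  field_simp
  try ring

theorem oddk : S_ODDK := by
  intro O C0 Λ _ hgap hΛ ψ hψ
  obtain ⟨μ, hμ, hμΛ, hs⟩ := hψ.supp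
  have hν : 0 < Λ / 2 := by linarith
  have hT : TstL Λ (chi ψ (Λ / 2)) :=
    ⟨chi_cd hψ.smooth _, chi_even ψ _, μ + Λ / 2, by linarith, by linarith,
      chi_supp (hψ.smooth 0).continuous hμ hν hs⟩
  refine Eq.trans ?_ (hgap _ hT)
  apply setIntegral_congr_fun measurableSet_Ioi
  intro u hu
  simp only
  rw [dt_chi hψ.smooth hψ.even hμ hν hs hu]
  ring

end Pool.Agent.W978.SW
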